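import Mathlib
import Pool.Agent.TH796.Fin.Fin8

set_option autoImplicit false

/-!
# The digits of `π + e` and `π e`

Of the two numbers `π + e` and `π e` one is transcendental over the field generated by all real
numbers with few digit blocks in the bases of a set `A`, or one is so for the bases of a set `B`, as
soon as `A` and `B` are multiplicatively independent of each other.
-/

namespace Pool.Agent.Results.MP_a49cf6_nt.DigitComplexity

/-- the digit of index `n + 1` after the point in the base `b` expansion of `x` -/
noncomputable def digit (b : ℕ) (x : ℝ) (n : ℕ) : ℤ := ⌊x * (b : ℝ) ^ (n + 1)⌋ % (b : ℤ)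

/-- the number of different blocks of `n` consecutive digits (after the point) of `x` in base `b` -/
noncomputable def blocks (b : ℕ) (x : ℝ) (n : ℕ) : ℕ :=
  (Set.range fun i => fun j : Fin n => digit b x (i + j)).ncard

/-- the field generated by all real numbers which in some base `b ∈ A` have at most `C n` different
blocks of `n` digits for all `n ∈ S`; `b` and `C` may depend on the number. It contains `ℚ`. -/
noncomputable def lowField (S A : Set ℕ) : Subfield ℝ :=
  Subfield.closure {x | ∃ b ∈ A, ∃ C : ℝ, ∀ n ∈ S, (blocks b x n : ℝ) ≤ C * n}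

/-- the subgroup of the multiplicative group of `ℚ` generated by `A` -/
def group (A : Set ℕ) : Subgroup ℚˣ := Subgroup.closure {u | ∃ b ∈ A, ((u : ℚˣ) : ℚ) = b}

/-- `x` or `y` is transcendental over `K` -/
def OneTranscendental (K : Subfield ℝ) (x y : ℝ) : Prop := Transcendental K x ∨ Transcendental K y

theorem one_of {K : Subfield ℝ} (h : Transcendental K (Real.exp 1)) :
    OneTranscendental K (Real.pi + Real.exp 1) (Real.pi * Real.exp 1) := by
  by_contra hcon
  unfold OneTranscendental Transcendental at hcon
  push Not at hcon
  obtain ⟨h1, h2⟩ := hcon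
  apply h
  -- `e` is a root of `X ^ 2 - (π + e) X + π e`
  have h3 : IsAlgebraic K ((Real.pi - Real.exp 1) ^ 2) := by
    have e : (Real.pi - Real.exp 1) ^ 2 =
        (Real.pi + Real.exp 1) ^ 2 - (4 : ℕ) • (Real.pi * Real.exp 1) := by
      simp only [nsmul_eq_mul]
      push_cast
      ring
    rw [e]
    exact (h1.pow 2).sub (h2.nsmul 4)
  have h4 : IsAlgebraic K (Real.pi - Real.exp 1) := IsAlgebraic.of_pow (by norm_num) h3
  have h5 : IsAlgebraic K ((2 : ℕ) • Real.exp 1) := by
    have e : (2 : ℕ) • Real.exp 1 = (Real.pi + Real.exp 1) - (Real.pi - Real.exp 1) := by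
      simp only [nsmul_eq_mul]
      push_cast
      ring
    rw [e]
    exact h1.sub h4
  have h6 : IsAlgebraic K ((algebraMap K ℝ (1 / 2)) * ((2 : ℕ) • Real.exp 1)) :=
    (isAlgebraic_algebraMap (1 / 2 : K)).mul h5
  have e : (algebraMap K ℝ (1 / 2)) * ((2 : ℕ) • Real.exp 1) = Real.exp 1 := by
    rw [map_div₀, map_one, map_ofNat]
    simp only [nsmul_eq_mul]
    push_cast
    ring
  rwa [e] at h6

/-- **The digits of `π + e` and `π e`.** Let `S` be an infinite set of integers, and let `A` and `B` be
sets of bases which generate subgroups of the multiplicative group of `ℚ` with trivial intersection.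
Then one of the numbers `π + e` and `π e` is transcendental over the field generated by all real
numbers which have `O(n)` different blocks of `n` digits, `n ∈ S`, in some base of `A`, or one of them
is transcendental over the field generated by all real numbers which have `O(n)` different blocks of
`n` digits, `n ∈ S`, in some base of `B`. -/
theorem result :
    ∀ S : Set ℕ, S.Infinite → ∀ A B : Set ℕ, (∀ b ∈ A, 2 ≤ b) → (∀ b ∈ B, 2 ≤ b) →
      group A ⊓ group B = ⊥ →
      OneTranscendental (lowField S A) (Real.pi + Real.exp 1) (Real.pi * Real.exp 1) ∨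
      OneTranscendental (lowField S B) (Real.pi + Real.exp 1) (Real.pi * Real.exp 1) := by
  have hm : Pool.Agent.TH456.TM.MeasT ((Real.exp 1 : ℝ) : ℂ) :=
    Pool.Agent.TH796.AL.Ai.measT_of (Or.inl rfl)
  have ht : Transcendental ℚ (Real.exp 1) := Pool.Agent.TH796.AL.Alg.transc_of_measT hm
  have hU : ¬ Pool.Agent.TH796.AL.Ai.UNumber (Real.exp 1) :=
    Pool.Agent.TH796.AL.Ai.not_unumber hm
  intro S hS A B hA hB hAB
  rcases Pool.Agent.TH796.AL.Alg.free_pair ht hU hA hB hAB hS with h | h
  · exact Or.inl (one_of h.1)
  · exact Or.inr (one_of h.1)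

end Pool.Agent.Results.MP_a49cf6_nt.DigitComplexity
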