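import Mathlib
import Pool.Agent.Y928.JL.GenU
import Pool.Agent.W472.AC.EMeas2

/-!
# The digits of `π + e` and `π e` satisfy no common short linear recurrence

The linear complexity `N(x; L)` of the first `L` digits of `x` in base `b` is the least order of a
linear recurrence over `ℚ` satisfied by these digits; `x` is rational if and only if it is bounded
for `L → ∞`, and it is about `L / 2` for random digits. One of `π + e`, `π e` is irrational since `e`
is a root of `X ^ 2 - (π + e) X + π e`. We prove, with constants independent of the base,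
`N(π + e; L) + N(π e; L) ≥ L / (3 + η) - C √(L log L)` for every `η > 0`, so at every large scale `L`
one of the two numbers has linear complexity at least `(1 / 6 - ε) L`; and the joint linear complexity
(one recurrence for both digit sequences) is at least `(1 / 3 - ε) L`, with errors in `k` places allowed
at least `(1 / (3 + 3 ^ 2 + … + 3 ^ (k + 1)) - ε) L`. The same holds, uniformly, for `t + e`, `t e` with
real `t` in a bounded interval, and for the coefficients of all polynomials of degree `n` with real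
coefficients in a bounded interval and the root `e`, with `n + 1` in place of `3`.

Definitions and the treatment of digit sequences are those of
`Pool/Agent/Results/MP_363d4d_nt/DigitRecurrences.lean` (helper928), for several numbers.
-/

set_option autoImplicit false

namespace Pool.Agent.Results.MP_a49cf6_nt.DigitRecurrences

open Finset Polynomial

/-- the `i`-th digit of `x` after the point in base `b` -/
noncomputable def digit (b : ℕ) (x : ℝ) (i : ℕ) : ℤ := ⌊x * (b : ℝ) ^ i⌋ % (b : ℤ)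

/-- The terms `s_1, …, s_L` satisfy the linear recurrence
`s_(i+m) = c_0 s_i + … + c_(m-1) s_(i+m-1)` for `1 ≤ i ≤ L - m`. -/
def Recurrence (s : ℕ → ℤ) (c : ℕ → ℚ) (L m : ℕ) : Prop :=
  ∀ i : ℕ, 1 ≤ i → i + m ≤ L → (s (i + m) : ℚ) = ∑ j ∈ range m, c j * (s (i + j) : ℚ)

/-- the linear complexity of the first `L` digits of `x` in base `b` -/
noncomputable def complexity (b : ℕ) (x : ℝ) (L : ℕ) : ℕ :=
  sInf {m | ∃ c : ℕ → ℚ, Recurrence (digit b x) c L m}

/-- the joint `k`-error linear complexity of the first `L` digits of the numbers `x j` in base `b`: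
the least order of a common recurrence for the first `L` terms of sequences of integers between `-b`
and `b` which agree with the digits of all the `x j` in all but at most `k` of the places
`1, …, L` -/
noncomputable def jointComplexity {J : ℕ} (b : ℕ) (x : Fin J → ℝ) (k L : ℕ) : ℕ :=
  sInf {m | ∃ (s : Fin J → ℕ → ℤ) (c : ℕ → ℚ), (∀ j i, |s j i| ≤ b) ∧
    ((Icc 1 L).filter fun i => ∃ j, s j i ≠ digit b (x j) i).card ≤ k ∧
    ∀ j, Recurrence (s j) c L m}

/-- the function `m + C √((m+1) log (m+2))` -/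
noncomputable def F (C : ℝ) (m : ℕ) : ℝ :=
  m + C * Real.sqrt (((m : ℝ) + 1) * Real.log ((m : ℝ) + 2))

/-- the number of `i ≤ M` with different `i`-th and `(i+1)`-st digits, for `x` or for `y` -/
noncomputable def changes (b : ℕ) (x y : ℝ) (M : ℕ) : ℕ :=
  ((Icc 1 M).filter fun i =>
    digit b x i ≠ digit b x (i + 1) ∨ digit b y i ≠ digit b y (i + 1)).card

/-! ### the shift operator -/

/-- the shift -/
def S : (ℕ → ℚ) →ₗ[ℚ] (ℕ → ℚ) where
  toFun a i := a (i + 1)
  map_add' _ _ := rfl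
  map_smul' _ _ := rfl

lemma S_pow (a : ℕ → ℚ) (j i : ℕ) : (S ^ j) a i = a (i + j) := by
  induction j generalizing i with
  | zero => simp
  | succ j ih =>
    rw [pow_succ', Module.End.mul_apply]
    change ((S ^ j) a) (i + 1) = _
    rw [ih]
    congr 1
    ring

lemma aeval_S (P : ℚ[X]) (a : ℕ → ℚ) (i N : ℕ) (h : P.natDegree < N) :
    (aeval S P) a i = ∑ j ∈ range N, P.coeff j * a (i + j) := by
  rw [aeval_eq_sum_range' h, LinearMap.sum_apply, Finset.sum_apply]
  refine Finset.sum_congr rfl fun j _ => ?_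
  rw [LinearMap.smul_apply, Pi.smul_apply, S_pow, smul_eq_mul]

/-- the polynomial of a recurrence -/
noncomputable def poly (c : ℕ → ℚ) (m : ℕ) : ℚ[X] := X ^ m - ∑ j ∈ range m, C (c j) * X ^ j

lemma low_degree (c : ℕ → ℚ) (m : ℕ) : (∑ j ∈ range m, C (c j) * X ^ j : ℚ[X]).degree < m := by
  refine (degree_sum_le _ _).trans_lt ?_
  rw [Finset.sup_lt_iff (by exact_mod_cast WithBot.bot_lt_coe m)]
  intro j hj
  refine (degree_C_mul_X_pow_le _ _).trans_lt ?_
  exact_mod_cast mem_range.mp hj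

lemma poly_monic (c : ℕ → ℚ) (m : ℕ) : (poly c m).Monic := monic_X_pow_sub (low_degree c m)

lemma poly_natDegree (c : ℕ → ℚ) (m : ℕ) : (poly c m).natDegree = m := by
  apply natDegree_eq_of_degree_eq_some
  unfold poly
  rw [degree_sub_eq_left_of_degree_lt, degree_X_pow]
  rw [degree_X_pow]
  exact low_degree c m

lemma poly_coeff (c : ℕ → ℚ) (m j : ℕ) (hj : j < m) : (poly c m).coeff j = - c j := by
  unfold poly
  rw [coeff_sub, coeff_X_pow, if_neg hj.ne, finsetSum_coeff, zero_sub]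
  congr 1
  rw [Finset.sum_eq_single j]
  · rw [coeff_C_mul_X_pow, if_pos rfl]
  · intro l _ hl
    rw [coeff_C_mul_X_pow, if_neg hl.symm]
  · intro h
    exact absurd (mem_range.mpr hj) h

lemma poly_coeff_top (c : ℕ → ℚ) (m : ℕ) : (poly c m).coeff m = 1 := by
  have h := poly_monic c m
  rw [Monic, leadingCoeff, poly_natDegree] at h
  exact h

/-- a recurrence in terms of the shift -/
lemma rec_iff (s : ℕ → ℤ) (c : ℕ → ℚ) (L m : ℕ) :
    Recurrence s c L m ↔
      ∀ i : ℕ, 1 ≤ i → i + m ≤ L → (aeval S (poly c m)) (fun i => (s i : ℚ)) i = 0 := by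
  unfold Recurrence
  refine forall_congr' fun i => forall_congr' fun h1 => forall_congr' fun h2 => ?_
  rw [aeval_S _ _ i (m + 1) (by rw [poly_natDegree]; omega), Finset.sum_range_succ, poly_coeff_top,
    one_mul]
  have e : ∑ j ∈ range m, (poly c m).coeff j * (s (i + j) : ℚ) =
      - ∑ j ∈ range m, c j * (s (i + j) : ℚ) := by
    rw [← Finset.sum_neg_distrib]
    refine Finset.sum_congr rfl fun j hj => ?_
    rw [poly_coeff c m j (mem_range.mp hj)]
    ring
  rw [e]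
  constructor
  · intro h
    rw [h]; ring
  · intro h
    linarith

/-- if `P(S) a` vanishes on `1, …, L - m` then `Q(S) P(S) a` vanishes on `1, …, L - m - m'` -/
lemma mul_vanish (P Q : ℚ[X]) (a : ℕ → ℚ) (L m m' : ℕ) (hQ : Q.natDegree = m')
    (h : ∀ i : ℕ, 1 ≤ i → i + m ≤ L → (aeval S P) a i = 0) :
    ∀ i : ℕ, 1 ≤ i → i + (m + m') ≤ L → (aeval S (Q * P)) a i = 0 := by
  intro i h1 h2
  rw [map_mul, Module.End.mul_apply, aeval_S _ _ i (m' + 1) (by omega)]
  refine Finset.sum_eq_zero fun j hj => ?_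
  rw [mem_range] at hj
  rw [h (i + j) (by omega) (by omega), mul_zero]

/-- a common recurrence of order `∑ m j` -/
theorem common {J : ℕ} (s : Fin J → ℕ → ℤ) (c : Fin J → ℕ → ℚ) (L : ℕ) (m : Fin J → ℕ)
    (h : ∀ j, Recurrence (s j) (c j) L (m j)) :
    ∃ d : ℕ → ℚ, ∀ j, Recurrence (s j) d L (∑ j, m j) := by
  classical
  obtain ⟨R, hR⟩ : ∃ R : ℚ[X], R = ∏ j, poly (c j) (m j) := ⟨_, rfl⟩
  have hRm : R.Monic := by
    rw [hR]; exact monic_prod_of_monic _ _ fun j _ => poly_monic _ _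
  have hRd : R.natDegree = ∑ j, m j := by
    rw [hR, natDegree_prod_of_monic _ _ fun j _ => poly_monic _ _]
    exact Finset.sum_congr rfl fun j _ => poly_natDegree _ _
  refine ⟨fun j => - R.coeff j, fun j => ?_⟩
  have h1 := mul_vanish (poly (c j) (m j)) (∏ i ∈ univ.erase j, poly (c i) (m i)) _ L (m j)
    (∑ i ∈ univ.erase j, m i) (by
      rw [natDegree_prod_of_monic _ _ fun j _ => poly_monic _ _]
      exact Finset.sum_congr rfl fun j _ => poly_natDegree _ _) ((rec_iff _ _ _ _).1 (h j))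
  rw [mul_comm, Finset.mul_prod_erase univ (fun i => poly (c i) (m i)) (mem_univ j), ← hR,
    Finset.add_sum_erase univ m (mem_univ j)] at h1
  intro i hi hiL
  have h3 := h1 i hi hiL
  rw [aeval_S _ _ i (∑ j, m j + 1) (by omega), Finset.sum_range_succ] at h3
  have h4 : R.coeff (∑ j, m j) = 1 := by
    have h5 := hRm
    rw [Monic, leadingCoeff, hRd] at h5
    exact h5
  rw [h4, one_mul] at h3
  have e : ∑ l ∈ range (∑ j, m j), - R.coeff l * (s j (i + l) : ℚ) =
      - ∑ l ∈ range (∑ j, m j), R.coeff l * (s j (i + l) : ℚ) := by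
    rw [← Finset.sum_neg_distrib]
    exact Finset.sum_congr rfl fun j _ => by ring
  rw [e]
  linarith

/-! ### the measure -/

lemma dig_abs (b : ℕ) (hb : 2 ≤ b) (x : ℝ) (i : ℕ) : |digit b x i| ≤ b := by
  unfold digit
  have hb0 : (0 : ℤ) < b := by exact_mod_cast (by omega : 0 < b)
  rw [abs_of_nonneg (Int.emod_nonneg _ hb0.ne')]
  exact (Int.emod_lt_of_pos _ hb0).le

/-- a simultaneous measure of irrationality for the coefficients of a polynomial with root `e` -/
theorem meas (n : ℕ) (c : Fin (n + 1) → ℤ) (hc : c 0 ≠ 0) (T η : ℝ) (hη : 0 < η) :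
    ∃ c0 : ℝ, 0 < c0 ∧ ∀ y : Fin n → ℝ, (∀ j, |y j| ≤ T) →
      (c 0 : ℝ) * Real.exp 1 ^ n = ∑ j : Fin n, (c j.succ : ℝ) * y j * Real.exp 1 ^ (j : ℕ) →
      Pool.Agent.W47.JL.Meas n y (n + 1 + η) c0 0 := by
  obtain ⟨c1, hc1, hm⟩ := Pool.Agent.W472.AC.e_measP n η hη
  obtain ⟨M, hM⟩ : ∃ M : ℝ, M = (∑ j, |(c j : ℝ)|) * (|T| + 1) := ⟨_, rfl⟩
  have he1 : 1 ≤ Real.exp 1 := Real.one_le_exp zero_le_one
  have hc0R : (1 : ℝ) ≤ |(c 0 : ℝ)| := by exact_mod_cast Int.one_le_abs hc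
  have hcj : ∀ j, |(c j : ℝ)| ≤ ∑ j, |(c j : ℝ)| := fun j =>
    Finset.single_le_sum (f := fun j => |(c j : ℝ)|) (fun _ _ => abs_nonneg _) (mem_univ j)
  have hs1 : (1 : ℝ) ≤ ∑ j, |(c j : ℝ)| := hc0R.trans (hcj 0)
  have hT1 : (1 : ℝ) ≤ |T| + 1 := by linarith [abs_nonneg T]
  have hM1 : 1 ≤ M := by
    rw [hM]
    nlinarith
  obtain ⟨E, hE⟩ : ∃ E : ℝ, E = (∑ j, |(c j : ℝ)|) * Real.exp 1 ^ n := ⟨_, rfl⟩
  have hE1 : 1 ≤ E := by
    rw [hE]
    have : 1 ≤ Real.exp 1 ^ n := one_le_pow₀ he1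
    nlinarith
  have hMp : 0 < M ^ ((n : ℝ) + η) := Real.rpow_pos_of_pos (by linarith) _
  obtain ⟨c0, hc0⟩ : ∃ c0 : ℝ, c0 = min 1 (c1 / (2 * E * M ^ ((n : ℝ) + η))) := ⟨_, rfl⟩
  have hc00 : 0 < c0 := by
    rw [hc0]
    exact lt_min one_pos (by positivity)
  refine ⟨c0, hc00, fun y hy hrel => ?_⟩
  intro q hq p
  by_contra hcon
  push Not at hcon
  have hqR : (1 : ℝ) ≤ q := by exact_mod_cast hq
  have hq0 : (0 : ℝ) < q := by linarith
  have hexp : (n : ℝ) + 1 + η - 1 = n + η := by ring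
  simp only [Real.rpow_zero, mul_one, hexp] at hcon
  obtain ⟨Q, hQ⟩ : ∃ Q : ℝ, Q = (q : ℝ) ^ ((n : ℝ) + η) := ⟨_, rfl⟩
  have hQ1 : 1 ≤ Q := by
    rw [hQ]
    exact Real.one_le_rpow hqR (by positivity)
  have hδ : ∀ j, |q * y j - p j| < c0 / Q := by
    intro j
    rw [lt_div_iff₀ (by linarith), mul_comm]
    have := hcon j
    rwa [← hQ] at this
  have hc0le1 : c0 ≤ 1 := by rw [hc0]; exact min_le_left _ _
  have hδ1 : ∀ j, |q * y j - p j| ≤ 1 := fun j =>
    (hδ j).le.trans ((div_le_self hc00.le hQ1).trans hc0le1)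
  have hp : ∀ j, |(p j : ℝ)| ≤ q * (|T| + 1) := by
    intro j
    have h1 : (p j : ℝ) = q * y j - (q * y j - p j) := by ring
    rw [h1]
    refine (abs_sub _ _).trans ?_
    rw [abs_mul, abs_of_pos hq0]
    have h2 := (hy j).trans (le_abs_self T)
    have h3 := hδ1 j
    nlinarith
  -- the polynomial
  obtain ⟨P, hP⟩ : ∃ P : ℤ[X], P = C (c 0 * q) * X ^ n -
    ∑ j : Fin n, C (c j.succ * p j) * X ^ (j : ℕ) := ⟨_, rfl⟩
  have hcoef : ∀ i, P.coeff i = (if i = n then c 0 * (q : ℤ) else 0) -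
      (if h : i < n then c (⟨i, h⟩ : Fin n).succ * p ⟨i, h⟩ else 0) := by
    intro i
    rw [hP, coeff_sub, coeff_C_mul_X_pow, finsetSum_coeff]
    congr 1
    by_cases h : i < n
    · rw [dif_pos h, Finset.sum_eq_single (⟨i, h⟩ : Fin n)]
      · rw [coeff_C_mul_X_pow, if_pos rfl]
      · intro j _ hj
        rw [coeff_C_mul_X_pow, if_neg]
        intro h2
        exact hj (Fin.ext h2.symm)
      · intro h2
        exact absurd (mem_univ _) h2
    · rw [dif_neg h]
      refine Finset.sum_eq_zero fun j _ => ?_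
      rw [coeff_C_mul_X_pow, if_neg]
      intro h2
      exact h (h2 ▸ j.2)
  have hPn : P.coeff n = c 0 * q := by
    rw [hcoef, if_pos rfl, dif_neg (lt_irrefl n), sub_zero]
  have hP0 : P ≠ 0 := by
    intro h0
    rw [h0, coeff_zero] at hPn
    have h1 : (q : ℤ) ≠ 0 := by exact_mod_cast (by omega : q ≠ 0)
    exact mul_ne_zero hc h1 hPn.symm
  have hPd : P.natDegree ≤ n := by
    rw [natDegree_le_iff_coeff_eq_zero]
    intro i hi
    rw [hcoef, if_neg (by omega), dif_neg (by omega), sub_zero]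
  have hPH : ∀ i, |((P.coeff i : ℤ) : ℝ)| ≤ q * M := by
    intro i
    rw [hcoef]
    by_cases h1 : i = n
    · rw [if_pos h1, dif_neg (by omega), sub_zero]
      push_cast
      rw [abs_mul, abs_of_pos hq0, hM]
      have h2 := hcj 0
      have h3 : |(c 0 : ℝ)| ≤ (∑ j, |(c j : ℝ)|) * (|T| + 1) := by nlinarith
      nlinarith
    · rw [if_neg h1, zero_sub]
      by_cases h2 : i < n
      · rw [dif_pos h2]
        push_cast
        rw [abs_neg, abs_mul, hM]
        calc |(c (⟨i, h2⟩ : Fin n).succ : ℝ)| * |(p ⟨i, h2⟩ : ℝ)| ≤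
            (∑ j, |(c j : ℝ)|) * (q * (|T| + 1)) :=
              mul_le_mul (hcj _) (hp _) (abs_nonneg _) (by linarith)
          _ = _ := by ring
      · rw [dif_neg h2]
        simp only [neg_zero, Int.cast_zero, abs_zero]
        positivity
  have hval : aeval (Real.exp 1) P =
      ∑ j : Fin n, (c j.succ : ℝ) * (q * y j - p j) * Real.exp 1 ^ (j : ℕ) := by
    rw [hP, map_sub, map_mul, aeval_C, map_pow, aeval_X, map_sum]
    simp only [map_mul, map_pow, aeval_X, algebraMap_int_eq, eq_intCast, map_intCast,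
      Int.cast_natCast]
    have h1 : (c 0 : ℝ) * q * Real.exp 1 ^ n =
        ∑ j : Fin n, (q : ℝ) * ((c j.succ : ℝ) * y j * Real.exp 1 ^ (j : ℕ)) := by
      rw [← Finset.mul_sum, ← hrel]
      ring
    rw [h1, ← Finset.sum_sub_distrib]
    exact Finset.sum_congr rfl fun j _ => by ring
  have hsmall : |aeval (Real.exp 1) P| ≤ E * (c0 / Q) := by
    rw [hval]
    refine (Finset.abs_sum_le_sum_abs _ _).trans ?_
    have h1 : ∀ j : Fin n, |(c j.succ : ℝ) * (q * y j - p j) * Real.exp 1 ^ (j : ℕ)| ≤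
        |(c j.succ : ℝ)| * (Real.exp 1 ^ n * (c0 / Q)) := by
      intro j
      rw [abs_mul, abs_mul, abs_of_pos (by positivity : 0 < Real.exp 1 ^ (j : ℕ)), mul_assoc]
      refine mul_le_mul_of_nonneg_left ?_ (abs_nonneg _)
      rw [mul_comm]
      exact mul_le_mul (pow_le_pow_right₀ he1 j.2.le) (hδ j).le (abs_nonneg _) (by positivity)
    refine (Finset.sum_le_sum fun j _ => h1 j).trans ?_
    rw [← Finset.sum_mul, hE, mul_assoc]
    refine mul_le_mul_of_nonneg_right ?_ (by positivity)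
    rw [Fin.sum_univ_succ (fun j : Fin (n + 1) => |(c j : ℝ)|)]
    linarith [abs_nonneg (c 0 : ℝ)]
  have hqM : 1 ≤ (q : ℝ) * M := by nlinarith
  have hfin := hm P hP0 hPd (q * M) hqM hPH
  rw [Real.mul_rpow hq0.le (by linarith), ← hQ] at hfin
  have h9 : c1 ≤ Q * M ^ ((n : ℝ) + η) * (E * (c0 / Q)) :=
    hfin.trans (mul_le_mul_of_nonneg_left hsmall (by positivity))
  have h10 : Q * M ^ ((n : ℝ) + η) * (E * (c0 / Q)) = M ^ ((n : ℝ) + η) * E * c0 := by
    field_simp
  rw [h10] at h9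
  have h11 : c0 ≤ c1 / (2 * E * M ^ ((n : ℝ) + η)) := by rw [hc0]; exact min_le_right _ _
  rw [le_div_iff₀ (by positivity)] at h11
  nlinarith

/-- the main inequality -/
theorem joint (μ c0 : ℝ) (hμ : 1 < μ) (hc0 : 0 < c0) : ∃ C : ℝ, 0 < C ∧
    ∀ (J : ℕ) (x : Fin J → ℝ), Pool.Agent.W47.JL.Meas J x μ c0 0 → ∀ b : ℕ, 2 ≤ b →
    ∀ (k L m : ℕ) (a : Fin J → ℕ → ℤ) (c : ℕ → ℚ), (∀ j i, |a j i| ≤ b) →
    ((Icc 1 L).filter fun i => ∃ j, a j i ≠ digit b (x j) i).card ≤ k →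
    (∀ j, Recurrence (a j) c L m) → (L : ℝ) ≤ (∑ i ∈ range (k + 1), μ ^ (i + 1)) * F C m := by
  obtain ⟨C, hC0, hC⟩ := Pool.Agent.Y928.JL.uniform μ c0 0 hμ hc0 le_rfl
  refine ⟨C, hC0, fun J x hx b hb k L m a c ha hE hr => ?_⟩
  exact hC J x hx b hb L m k (fun j i => a j (i + 1)) (fun j i _ => ha j _)
    ⟨((Icc 1 L).filter fun i => ∃ j, a j i ≠ digit b (x j) i).image (· - 1),
      Finset.card_image_le.trans hE, by
        intro i hi hiE j
        by_contra hne
        apply hiE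
        rw [mem_image]
        refine ⟨i + 1, ?_, by omega⟩
        rw [mem_filter, mem_Icc]
        exact ⟨⟨by omega, by omega⟩, j, hne⟩⟩
    ⟨c, by
      intro j i hi
      have h1 := hr j (i + 1) (by omega) (by omega)
      rw [show i + m + 1 = i + 1 + m by ring, h1]
      exact Finset.sum_congr rfl fun l _ => by rw [show i + l + 1 = i + 1 + l by ring]⟩

/-! ### complexities -/

lemma F_mono {C : ℝ} (hC : 0 ≤ C) {m n : ℕ} (h : m ≤ n) : F C m ≤ F C n := by
  unfold F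
  have h1 : (m : ℝ) ≤ n := by exact_mod_cast h
  have hm : (0 : ℝ) ≤ m := Nat.cast_nonneg m
  have h2 : Real.log ((m : ℝ) + 2) ≤ Real.log ((n : ℝ) + 2) :=
    Real.log_le_log (by positivity) (by linarith)
  have h3 : 0 ≤ Real.log ((m : ℝ) + 2) := Real.log_nonneg (by linarith)
  have h4 : ((m : ℝ) + 1) * Real.log ((m : ℝ) + 2) ≤ ((n : ℝ) + 1) * Real.log ((n : ℝ) + 2) :=
    mul_le_mul (by linarith) h2 h3 (by linarith)
  have h5 := mul_le_mul_of_nonneg_left (Real.sqrt_le_sqrt h4) hC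
  linarith

lemma attained (b : ℕ) (x : ℝ) (L : ℕ) :
    ∃ c : ℕ → ℚ, Recurrence (digit b x) c L (complexity b x L) := by
  refine Nat.sInf_mem (s := {m | ∃ c : ℕ → ℚ, Recurrence (digit b x) c L m}) ?_
  exact ⟨L, fun _ => 0, fun i h1 h2 => by omega⟩

lemma joint_attained {J : ℕ} (b : ℕ) (hb : 2 ≤ b) (x : Fin J → ℝ) (k L : ℕ) :
    ∃ (s : Fin J → ℕ → ℤ) (c : ℕ → ℚ), (∀ j i, |s j i| ≤ b) ∧
    ((Icc 1 L).filter fun i => ∃ j, s j i ≠ digit b (x j) i).card ≤ k ∧
    ∀ j, Recurrence (s j) c L (jointComplexity b x k L) := by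
  refine Nat.sInf_mem (s := {m | ∃ (s : Fin J → ℕ → ℤ) (c : ℕ → ℚ), (∀ j i, |s j i| ≤ b) ∧
    ((Icc 1 L).filter fun i => ∃ j, s j i ≠ digit b (x j) i).card ≤ k ∧
    ∀ j, Recurrence (s j) c L m}) ?_
  exact ⟨L, fun j => digit b (x j), fun _ => 0, fun j => dig_abs b hb _, by simp,
    fun j i h1 h2 => by omega⟩

/-- the joint complexities and the sum of the complexities -/
theorem general (μ c0 : ℝ) (hμ : 1 < μ) (hc0 : 0 < c0) : ∃ C : ℝ, 0 < C ∧
    ∀ (J : ℕ) (x : Fin J → ℝ), Pool.Agent.W47.JL.Meas J x μ c0 0 → ∀ b : ℕ, 2 ≤ b → ∀ L : ℕ,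
      (∀ k : ℕ, (L : ℝ) ≤ (∑ i ∈ range (k + 1), μ ^ (i + 1)) * F C (jointComplexity b x k L)) ∧
      (L : ℝ) ≤ μ * F C (∑ j, complexity b (x j) L) := by
  obtain ⟨C, hC0, hC⟩ := joint μ c0 hμ hc0
  refine ⟨C, hC0, fun J x hx b hb L => ⟨fun k => ?_, ?_⟩⟩
  · obtain ⟨a, c, h1, h2, h3⟩ := joint_attained b hb x k L
    exact hC J x hx b hb k L _ a c h1 h2 h3
  · choose c hc using fun j => attained b (x j) L
    obtain ⟨d, hd⟩ := common (fun j => digit b (x j)) c L _ hc
    have h := hC J x hx b hb 0 L _ _ d (fun j => dig_abs b hb _) (by simp) hd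
    simpa using h

/-! ### digit changes -/

lemma F_linear (C ε : ℝ) (hC : 0 < C) (hε : 0 < ε) :
    ∃ K : ℝ, 0 ≤ K ∧ ∀ m : ℕ, F C m ≤ (1 + ε) * m + K := by
  -- `C √(a b) ≤ (ε/2) a + C² b / (2 ε)` with `b = log (m + 2)`
  obtain ⟨δ, hδ⟩ : ∃ δ : ℝ, δ = ε ^ 2 / C ^ 2 := ⟨_, rfl⟩
  have hδ0 : 0 < δ := by rw [hδ]; positivity
  obtain ⟨K1, hK1⟩ : ∃ K1 : ℝ, K1 = |Real.log δ| := ⟨_, rfl⟩
  refine ⟨ε + 1 * ε + C ^ 2 / (2 * ε) * (|Real.log δ|), by positivity, fun m => ?_⟩
  unfold F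
  have hm : (0 : ℝ) ≤ m := Nat.cast_nonneg m
  obtain ⟨a, ha⟩ : ∃ a : ℝ, a = (m : ℝ) + 1 := ⟨_, rfl⟩
  obtain ⟨l, hl⟩ : ∃ l : ℝ, l = Real.log ((m : ℝ) + 2) := ⟨_, rfl⟩
  have hl0 : 0 ≤ l := by rw [hl]; exact Real.log_nonneg (by linarith)
  have ha0 : 0 < a := by rw [ha]; positivity
  rw [← ha, ← hl]
  have h1 : C * Real.sqrt (a * l) ≤ ε / 2 * a + C ^ 2 / (2 * ε) * l := by
    have h2 : 0 ≤ ε / 2 * a + C ^ 2 / (2 * ε) * l := by positivity
    have h3 : C * Real.sqrt (a * l) = Real.sqrt (C ^ 2 * (a * l)) := by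
      have e3 : Real.sqrt (C ^ 2 * (a * l)) = C * Real.sqrt (a * l) := by
        rw [Real.sqrt_mul (by positivity), Real.sqrt_sq hC.le]
      exact e3.symm
    rw [h3]
    apply Real.sqrt_le_iff.mpr
    refine ⟨h2, ?_⟩
    have h4 : (ε / 2 * a + C ^ 2 / (2 * ε) * l) ^ 2 - C ^ 2 * (a * l) =
        (ε / 2 * a - C ^ 2 / (2 * ε) * l) ^ 2 := by
      field_simp
      ring
    nlinarith [sq_nonneg (ε / 2 * a - C ^ 2 / (2 * ε) * l)]
  have h5 : l ≤ δ * ((m : ℝ) + 2) + |Real.log δ| := by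
    have h6 : Real.log (δ * ((m : ℝ) + 2)) ≤ δ * ((m : ℝ) + 2) - 1 :=
      Real.log_le_sub_one_of_pos (by positivity)
    rw [Real.log_mul hδ0.ne' (by positivity)] at h6
    have h7 := neg_abs_le (Real.log δ)
    rw [hl]
    linarith
  have h8 : C ^ 2 / (2 * ε) * l ≤ C ^ 2 / (2 * ε) * (δ * ((m : ℝ) + 2) + |Real.log δ|) :=
    mul_le_mul_of_nonneg_left h5 (by positivity)
  have h9 : C ^ 2 / (2 * ε) * (δ * ((m : ℝ) + 2)) = ε / 2 * ((m : ℝ) + 2) := by
    rw [hδ]
    field_simp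
  rw [mul_add, h9] at h8
  rw [ha] at h1 ⊢
  nlinarith

/-- constant stretches of both digit sequences are short -/
lemma stretch (μ' c0 : ℝ) (hμ' : 1 < μ') (hc0 : 0 < c0) (μ : ℝ) (hμ : μ' < μ) :
    ∃ K : ℝ, 0 ≤ K ∧ ∀ x : Fin 2 → ℝ, Pool.Agent.W47.JL.Meas 2 x μ' c0 0 → ∀ b : ℕ,
    2 ≤ b → ∀ N L : ℕ,
      (∀ i, N < i → i < L → digit b (x 0) i = digit b (x 0) (i + 1) ∧
        digit b (x 1) i = digit b (x 1) (i + 1)) →
      (L : ℝ) ≤ μ * N + K := by
  obtain ⟨C, hC0, hC⟩ := joint μ' c0 hμ' hc0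
  obtain ⟨K, hK0, hK⟩ := F_linear C ((μ - μ') / μ') hC0 (by
    apply div_pos <;> linarith)
  refine ⟨μ + μ' * K, by nlinarith, fun x hx b hb N L h => ?_⟩
  have key : ∀ a : ℕ → ℤ, (∀ i, N < i → i < L → a i = a (i + 1)) →
      Recurrence a (fun j => if j = N then 1 else 0) L (N + 1) := by
    intro a ha i h1 h2
    rw [Finset.sum_eq_single N]
    · beta_reduce
      rw [if_pos rfl, one_mul, ha (i + N) (by omega) (by omega)]
      rfl
    · intro j _ hj
      beta_reduce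
      rw [if_neg hj, zero_mul]
    · intro hN
      exact absurd (mem_range.mpr (by omega)) hN
  have h1 := hC 2 x hx b hb 0 L (N + 1) (fun j => digit b (x j)) _ (fun j => dig_abs b hb _)
    (by simp) (fun j => by
      fin_cases j
      · exact key _ fun i h2 h3 => (h i h2 h3).1
      · exact key _ fun i h2 h3 => (h i h2 h3).2)
  have h2 := hK (N + 1)
  have h0 : ∑ i ∈ range (0 + 1), μ' ^ (i + 1) = μ' := by simp
  rw [h0] at h1
  push_cast at h2
  have h3 : 1 + (μ - μ') / μ' = μ / μ' := by field_simp; ring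
  rw [h3] at h2
  have h4 := mul_le_mul_of_nonneg_left h2 (by linarith : 0 ≤ μ')
  have h5 : μ' * (μ / μ' * ((N : ℝ) + 1) + K) = μ * (N + 1) + μ' * K := by
    field_simp
  rw [h5] at h4
  linarith

/-- many digit changes -/
theorem many_changes (μ' c0 : ℝ) (hμ' : 1 < μ') (hc0 : 0 < c0) (μ : ℝ) (hμ : μ' < μ) :
    ∃ C : ℝ, ∀ x : Fin 2 → ℝ, Pool.Agent.W47.JL.Meas 2 x μ' c0 0 → ∀ b : ℕ,
    2 ≤ b → ∀ M : ℕ, 1 ≤ M → Real.log M / Real.log μ - C ≤ changes b (x 0) (x 1) M := by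
  classical
  obtain ⟨K, hK0, hK⟩ := stretch μ' c0 hμ' hc0 μ hμ
  have hμ1 : 0 < μ - 1 := by linarith
  obtain ⟨A, hA⟩ : ∃ A : ℝ, A = (K + μ) / (μ - 1) + K + μ + 1 := ⟨_, rfl⟩
  have hA0 : K + μ ≤ A * (μ - 1) := by
    rw [hA]
    have h1 : (K + μ) / (μ - 1) * (μ - 1) = K + μ := div_mul_cancel₀ _ hμ1.ne'
    nlinarith
  have hA1 : 1 ≤ A := by
    rw [hA]
    have : 0 ≤ (K + μ) / (μ - 1) := by apply div_nonneg <;> linarith
    linarith
  have hA2 : K ≤ A := by
    rw [hA]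
    have : 0 ≤ (K + μ) / (μ - 1) := by apply div_nonneg <;> linarith
    linarith
  have hmain : ∀ x : Fin 2 → ℝ, Pool.Agent.W47.JL.Meas 2 x μ' c0 0 → ∀ b : ℕ, 2 ≤ b → ∀ M : ℕ,
      (M : ℝ) + A ≤ (2 * A) * μ ^ (changes b (x 0) (x 1) M) := by
    intro x hx b hb M
    induction M using Nat.strong_induction_on with
    | _ M ih =>
      obtain ⟨D, hD⟩ : ∃ D : ℕ → Prop, D = fun i =>
        digit b (x 0) i ≠ digit b (x 0) (i + 1) ∨
        digit b (x 1) i ≠ digit b (x 1) (i + 1) := ⟨_, rfl⟩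
      have hch : ∀ M, changes b (x 0) (x 1) M = ((Icc 1 M).filter fun i => D i).card := by
        intro M
        unfold changes
        subst hD
        congr!
      by_cases hex : ∃ i, 1 ≤ i ∧ i ≤ M ∧ D i
      · -- the largest change
        have hne : ((Icc 1 M).filter fun i => D i).Nonempty := by
          obtain ⟨i, h1, h2, h3⟩ := hex
          exact ⟨i, by rw [mem_filter, mem_Icc]; exact ⟨⟨h1, h2⟩, h3⟩⟩
        obtain ⟨N, hNdef⟩ : ∃ N, N = ((Icc 1 M).filter fun i => D i).max' hne := ⟨_, rfl⟩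
        have hNmem := Finset.max'_mem _ hne
        rw [← hNdef, mem_filter, mem_Icc] at hNmem
        obtain ⟨⟨hN1, hNM⟩, hND⟩ := hNmem
        have hmax : ∀ i, N < i → i ≤ M → ¬ D i := by
          intro i h1 h2 h3
          have h4 := Finset.le_max' ((Icc 1 M).filter fun i => D i) i (by
            rw [mem_filter, mem_Icc]; exact ⟨⟨by omega, h2⟩, h3⟩)
          omega
        have hlen := hK x hx b hb N M (by
          intro i h1 h2
          have h3 := hmax i h1 h2.le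
          rw [hD] at h3
          push Not at h3
          exact h3)
        have hih := ih (N - 1) (by omega)
        have hcard : changes b (x 0) (x 1) (N - 1) + 1 ≤ changes b (x 0) (x 1) M := by
          rw [hch, hch]
          have hsub : insert N ((Icc 1 (N - 1)).filter fun i => D i) ⊆
              (Icc 1 M).filter fun i => D i := by
            intro i hi
            rw [mem_insert, mem_filter, mem_Icc] at hi
            rw [mem_filter, mem_Icc]
            rcases hi with h | ⟨⟨h1, h2⟩, h3⟩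
            · rw [h]; exact ⟨⟨hN1, hNM⟩, hND⟩
            · exact ⟨⟨h1, by omega⟩, h3⟩
          have h5 := Finset.card_le_card hsub
          rw [Finset.card_insert_of_notMem (by
            intro h
            rw [mem_filter, mem_Icc] at h
            omega)] at h5
          exact h5
        have hμ0 : 1 ≤ μ := by linarith
        have hpow : μ ^ (changes b (x 0) (x 1) (N - 1) + 1) ≤ μ ^ (changes b (x 0) (x 1) M) :=
          pow_le_pow_right₀ hμ0 hcard
        rw [pow_succ] at hpow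
        have hN1R : ((N - 1 : ℕ) : ℝ) = N - 1 := by
          rw [Nat.cast_sub hN1]; push_cast; ring
        rw [hN1R] at hih
        have h6 : (M : ℝ) + A ≤ μ * ((N : ℝ) - 1 + A) := by nlinarith
        have h7 : μ * ((N : ℝ) - 1 + A) ≤ μ * (2 * A * μ ^ (changes b (x 0) (x 1) (N - 1))) :=
          mul_le_mul_of_nonneg_left hih (by linarith)
        have h8 := mul_le_mul_of_nonneg_left hpow (by linarith : 0 ≤ 2 * A)
        nlinarith
      · push Not at hex
        have hlen := hK x hx b hb 0 M (by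
          intro i h1 h2
          have h3 := hex i (by omega) h2.le
          rw [hD] at h3
          push Not at h3
          exact h3)
        rw [Nat.cast_zero, mul_zero, zero_add] at hlen
        have h1 : (1 : ℝ) ≤ μ ^ (changes b (x 0) (x 1) M) := one_le_pow₀ (by linarith)
        have h2 := mul_le_mul_of_nonneg_left h1 (by linarith : 0 ≤ 2 * A)
        linarith
  have hlμ : 0 < Real.log μ := Real.log_pos (by linarith)
  refine ⟨Real.log (2 * A) / Real.log μ, fun x hx b hb M hM => ?_⟩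
  have hMR : (1 : ℝ) ≤ M := by exact_mod_cast hM
  have h1 := hmain x hx b hb M
  have h2 : (M : ℝ) ≤ (2 * A) * μ ^ (changes b (x 0) (x 1) M) := by linarith
  have h3 := Real.log_le_log (by linarith) h2
  rw [Real.log_mul (by linarith) (pow_pos (by linarith : 0 < μ) _).ne', Real.log_pow] at h3
  rw [← sub_div, div_le_iff₀ hlμ]
  linarith

/-- the pair `t + e`, `t e` -/
theorem pair_meas (T η : ℝ) (hη : 0 < η) : ∃ c0 : ℝ, 0 < c0 ∧ ∀ t : ℝ, |t| ≤ T →
    Pool.Agent.W47.JL.Meas 2 ![t * Real.exp 1, t + Real.exp 1] (3 + η) c0 0 := by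
  obtain ⟨c0, hc0, h⟩ := meas 2 ![1, -1, 1] (by simp) (|T| * Real.exp 1 + |T| + Real.exp 1) η hη
  refine ⟨c0, hc0, fun t ht => ?_⟩
  have he := Real.exp_pos 1
  have ht' : |t| ≤ |T| := ht.trans (le_abs_self T)
  have h1 := h ![t * Real.exp 1, t + Real.exp 1] (by
    intro j
    fin_cases j
    · simp only [Fin.zero_eta, Fin.isValue, Matrix.cons_val_zero]
      rw [abs_mul, abs_of_pos he]
      nlinarith [abs_nonneg T]
    · simp only [Fin.mk_one, Fin.isValue, Matrix.cons_val_one]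
      refine (abs_add_le _ _).trans ?_
      rw [abs_of_pos he]
      nlinarith [abs_nonneg T]) (by
    rw [Fin.sum_univ_two]
    simp [-Real.exp_one_pow]
    ring)
  have e : ((2 : ℕ) : ℝ) + 1 + η = 3 + η := by norm_num
  rwa [e] at h1

/-- **Main theorem.** Let `F C m = m + C √((m + 1) log (m + 2))`, and let `N(x; L)` be the linear
complexity of the first `L` digits of `x` in base `b`.

(1) Let `c_0 ≠ 0, c_1, …, c_n` be integers and `T`, `η > 0` real. There is `C` such that for all real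
numbers `y_1, …, y_n` of absolute value at most `T` with
`c_0 e ^ n = c_1 y_1 + c_2 y_2 e + … + c_n y_n e ^ (n - 1)`, all bases `b ≥ 2` and all `k`, `L`: the joint
`k`-error linear complexity `m` of the first `L` digits of `y_1, …, y_n` satisfies
`L ≤ ((n + 1 + η) + … + (n + 1 + η) ^ (k + 1)) F C m`, and
`L ≤ (n + 1 + η) F C (N(y_1; L) + … + N(y_n; L))`.

(2) In particular for all `T` and `η > 0` there is `C` such that for all real `t` with `|t| ≤ T`, all
bases `b ≥ 2` and all `L`: `L ≤ (3 + η) F C (N(t + e; L) + N(t e; L))`, and the joint `k`-error linear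
complexity `m` of `t + e` and `t e` satisfies `L ≤ ((3 + η) + … + (3 + η) ^ (k + 1)) F C m` for all `k`.

(3) For every `ε > 0` there is `L_0` such that in all bases and for all `L ≥ L_0`
`N(π + e; L) ≥ (1 / 6 - ε) L` or `N(π e; L) ≥ (1 / 6 - ε) L`, `N(π + e; L) + N(π e; L) ≥ (1 / 3 - ε) L`,
and the joint linear complexity of `π + e` and `π e` is at least `(1 / 3 - ε) L`.

(4) For every `μ > 3` there is `C` such that in all bases and for all `M ≥ 1` there are at least
`log M / log μ - C` indices `i ≤ M` such that the digits number `i` and `i + 1` of `π + e` or those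
of `π e` are different. -/
theorem result :
    (∀ (n : ℕ) (c : Fin (n + 1) → ℤ), c 0 ≠ 0 → ∀ T η : ℝ, 0 < η → ∃ C : ℝ,
      ∀ y : Fin n → ℝ, (∀ j, |y j| ≤ T) →
      (c 0 : ℝ) * Real.exp 1 ^ n = ∑ j : Fin n, (c j.succ : ℝ) * y j * Real.exp 1 ^ (j : ℕ) →
      ∀ b : ℕ, 2 ≤ b → ∀ L : ℕ,
        (∀ k : ℕ, (L : ℝ) ≤ (∑ i ∈ range (k + 1), ((n : ℝ) + 1 + η) ^ (i + 1)) *
          F C (jointComplexity b y k L)) ∧
        (L : ℝ) ≤ ((n : ℝ) + 1 + η) * F C (∑ j, complexity b (y j) L)) ∧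
    (∀ T η : ℝ, 0 < η → ∃ C : ℝ, ∀ t : ℝ, |t| ≤ T → ∀ b : ℕ, 2 ≤ b → ∀ L : ℕ,
      (L : ℝ) ≤ (3 + η) * F C (complexity b (t + Real.exp 1) L + complexity b (t * Real.exp 1) L) ∧
      ∀ k : ℕ, (L : ℝ) ≤ (∑ i ∈ range (k + 1), (3 + η) ^ (i + 1)) *
        F C (jointComplexity b ![t * Real.exp 1, t + Real.exp 1] k L)) ∧
    (∀ ε : ℝ, 0 < ε → ∃ L₀ : ℕ, ∀ b : ℕ, 2 ≤ b → ∀ L : ℕ, L₀ ≤ L →
      ((1 / 6 - ε) * L ≤ complexity b (Real.pi + Real.exp 1) L ∨
        (1 / 6 - ε) * L ≤ complexity b (Real.pi * Real.exp 1) L) ∧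
      (1 / 3 - ε) * L ≤
        complexity b (Real.pi + Real.exp 1) L + complexity b (Real.pi * Real.exp 1) L ∧
      (1 / 3 - ε) * L ≤ jointComplexity b ![Real.pi * Real.exp 1, Real.pi + Real.exp 1] 0 L) ∧
    (∀ μ : ℝ, 3 < μ → ∃ C : ℝ, ∀ b : ℕ, 2 ≤ b → ∀ M : ℕ, 1 ≤ M →
      Real.log M / Real.log μ - C ≤
        changes b (Real.pi + Real.exp 1) (Real.pi * Real.exp 1) M) := by
  have h2 : ∀ T η : ℝ, 0 < η → ∃ C : ℝ, 0 < C ∧ ∀ t : ℝ, |t| ≤ T → ∀ b : ℕ, 2 ≤ b → ∀ L : ℕ,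
      (L : ℝ) ≤ (3 + η) * F C (complexity b (t + Real.exp 1) L + complexity b (t * Real.exp 1) L) ∧
      ∀ k : ℕ, (L : ℝ) ≤ (∑ i ∈ range (k + 1), (3 + η) ^ (i + 1)) *
        F C (jointComplexity b ![t * Real.exp 1, t + Real.exp 1] k L) := by
    intro T η hη
    obtain ⟨c0, hc0, hm⟩ := pair_meas T η hη
    obtain ⟨C, hC0, hC⟩ := general (3 + η) c0 (by linarith) hc0
    refine ⟨C, hC0, fun t ht b hb L => ?_⟩
    obtain ⟨h3, h4⟩ := hC 2 _ (hm t ht) b hb L
    refine ⟨?_, h3⟩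
    rw [Fin.sum_univ_two] at h4
    simp only [Matrix.cons_val_zero, Matrix.cons_val_one] at h4
    rwa [add_comm (complexity b (t * Real.exp 1) L)] at h4
  refine ⟨fun n c hc T η hη => ?_, fun T η hη => ?_, fun ε hε => ?_, fun μ hμ => ?_⟩
  · obtain ⟨c0, hc0, hm⟩ := meas n c hc T η hη
    obtain ⟨C, hC0, hC⟩ := general ((n : ℝ) + 1 + η) c0 (by
      have : (0 : ℝ) ≤ n := Nat.cast_nonneg n
      linarith) hc0
    exact ⟨C, fun y hy hrel b hb L => hC n y (hm y hy hrel) b hb L⟩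
  · obtain ⟨C, _, hC⟩ := h2 T η hη
    exact ⟨C, hC⟩
  · obtain ⟨C, hC0, hC⟩ := h2 Real.pi ε hε
    obtain ⟨K, hK0, hK⟩ := F_linear C ε hC0 hε
    -- `L ≤ (3 + ε) ((1 + ε) N + K)` gives `N ≥ (1/3 - ε) L` for large `L`
    obtain ⟨L₀, hL₀⟩ := exists_nat_gt (9 * (3 + ε) * K / ε + 1 / ε)
    have key : ∀ L N : ℕ, L₀ ≤ L → (L : ℝ) ≤ (3 + ε) * F C N → (1 / 3 - ε) * L ≤ N := by
      intro L N hL h
      have h3 := hK N
      have h4 : (L : ℝ) ≤ (3 + ε) * ((1 + ε) * N + K) :=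
        h.trans (mul_le_mul_of_nonneg_left h3 (by linarith))
      have hLR : (L₀ : ℝ) ≤ L := by exact_mod_cast hL
      have h5 : 9 * (3 + ε) * K / ε + 1 / ε < L := hL₀.trans_le hLR
      rw [← add_div, div_lt_iff₀ hε] at h5
      have hN0 : (0 : ℝ) ≤ N := Nat.cast_nonneg N
      have hL0 : (0 : ℝ) ≤ L := Nat.cast_nonneg L
      by_contra hcon
      push Not at hcon
      rcases le_or_gt (1 / 3) ε with h6 | h6
      · have h7 : (1 / 3 - ε) * L ≤ 0 := mul_nonpos_of_nonpos_of_nonneg (by linarith) hL0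
        linarith
      · have h7 : (3 + ε) * ((1 + ε) * N + K) ≤
            (3 + ε) * (1 + ε) * ((1 / 3 - ε) * L) + (3 + ε) * K := by
          have h8 := mul_le_mul_of_nonneg_left hcon.le (by positivity : 0 ≤ (3 + ε) * (1 + ε))
          linarith
        have h8 : (3 + ε) * (1 + ε) * ((1 / 3 - ε) * L) ≤ (1 - ε) * L := by
          have h9 : (3 + ε) * (1 + ε) * (1 / 3 - ε) ≤ 1 - ε := by nlinarith [sq_nonneg ε]
          have h10 := mul_le_mul_of_nonneg_right h9 hL0
          linarith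
        nlinarith [mul_nonneg (by linarith : 0 ≤ 3 + ε) hK0]
    refine ⟨L₀, fun b hb L hL => ?_⟩
    obtain ⟨h5, h6⟩ := hC Real.pi (by rw [abs_of_pos Real.pi_pos]) b hb L
    have h7 := h6 0
    have h0 : ∑ i ∈ range (0 + 1), (3 + ε) ^ (i + 1) = 3 + ε := by simp
    rw [h0] at h7
    have h8 := key L _ hL h5
    push_cast at h8
    refine ⟨?_, h8, key L _ hL h7⟩
    by_contra hcon
    push Not at hcon
    have hL0 : (0 : ℝ) ≤ L := Nat.cast_nonneg L
    nlinarith [hcon.1, hcon.2]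
  · obtain ⟨c0, hc0, hm⟩ := pair_meas Real.pi ((μ - 3) / 2) (by linarith)
    obtain ⟨C, hC⟩ := many_changes (3 + (μ - 3) / 2) c0 (by linarith) hc0 μ (by linarith)
    refine ⟨C, fun b hb M hM => ?_⟩
    have h := hC _ (hm Real.pi (by rw [abs_of_pos Real.pi_pos])) b hb M hM
    simp only [Matrix.cons_val_zero, Matrix.cons_val_one] at h
    have e : changes b (Real.pi + Real.exp 1) (Real.pi * Real.exp 1) M =
        changes b (Real.pi * Real.exp 1) (Real.pi + Real.exp 1) M := by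
      unfold changes
      congr 1
      ext i
      simp only [mem_filter, or_comm]
    rw [e]
    exact h

end Pool.Agent.Results.MP_a49cf6_nt.DigitRecurrences
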