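import Pool.Agent.Y668.PE.LogExp
import Pool.Agent.Y124.NFPoly

/-!
# `π`, `e`, `π^π`, `π^e`, `e^π`, `e^e` as values of six functions: almost all algebraic points

Put `M(x) = -i log x`, with the branch `M(-1) = π`, and `E(x) = e^(2+x)`, so `E(-1) = e`.  We show that at almost all
points `x` (and `n`-tuples of points) of number fields of bounded degree the six numbers
`M`, `E`, `M^M`, `M^E`, `E^M`, `E^E` do not satisfy any (approximate) algebraic relation of bounded degree and
polynomially bounded height, relative to arbitrary complex constants.  At `x = -1` the numbers are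
`π`, `e`, `π^π`, `π^e`, `e^π`, `e^e`.

The proof contains the algebraic independence of the six functions over `ℂ(x)`: on the universal covering of `ℂ \ {0}`
the monodromy `M ↦ M + 2πn` fixes `x`, `E`, `E^E` and separates the growth of `M`, `M^M`, `M^E`, `E^M` if the real part
of `E` is irrational.
-/

set_option autoImplicit false

open NumberField

namespace Pool.Agent.Results.MP_a49cf6_nt.LogExpPowers

/-- `M(x) = -i log x`, with the branch `M(-1) = π`, outside the half line `[0, ∞)` -/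
noncomputable def M (x : ℂ) : ℂ := Real.pi - Complex.I * Complex.log (-x)

/-- `E(x) = e^(2+x)` -/
noncomputable def E (x : ℂ) : ℂ := Complex.exp (2 + x)

/-- The six numbers `M`, `E`, `M^M`, `M^E`, `E^M`, `E^E` at `x`; here `E^z = e^((2+x)z)`. -/
noncomputable def values (x : ℂ) : Fin 6 → ℂ :=
  ![M x, E x, M x ^ M x, M x ^ E x, Complex.exp ((2 + x) * M x), Complex.exp ((2 + x) * E x)]

/-- The elements of the number field `F` with image in `L` which are quotients of two integers of `F` all of whose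
conjugates have absolute value at most `T`. -/
def Points (F : Type) [Field F] [NumberField F] (ι : F →+* ℂ) (L : Set ℂ) (T : ℝ) : Set F :=
  {x | ι x ∈ L ∧ ∃ a b : 𝓞 F, b ≠ 0 ∧ (∀ φ : F →+* ℂ, ‖φ a‖ ≤ T ∧ ‖φ b‖ ≤ T) ∧ x = a / b}

/-- The `n`-tuples `t` of points of `F` for which there is a polynomial `P` of degree at most `d` in each variable, with
coefficients of the form `∑ ξ_i ι(c_i)`, where the `c_i` are integers of `F` all of whose conjugates have absolute value
at most `T ^ A`, such that the value of `P` at the `6n` numbers `values (t_j)`, `j ≤ n`, is at most `T ^ (-B)` times the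
absolute value of some nonzero coefficient of `P`. -/
def Exceptional (n d : ℕ) {g : ℕ} (F : Type) [Field F] [NumberField F] (ι : F →+* ℂ)
    (ξ : Fin g → ℂ) (L : Set ℂ) (A B T : ℝ) : Set (Fin n → F) :=
  {t | (∀ j, t j ∈ Points F ι L T) ∧ ∃ P : MvPolynomial (Fin n × Fin 6) ℂ,
    (∀ x, P.degreeOf x ≤ d) ∧
    (∀ s, ∃ c : Fin g → 𝓞 F, (∀ i (φ : F →+* ℂ), ‖φ (c i)‖ ≤ T ^ A) ∧ P.coeff s = ∑ i, ξ i * ι (c i)) ∧
    ∃ s₀, P.coeff s₀ ≠ 0 ∧
      ‖MvPolynomial.aeval (fun x : Fin n × Fin 6 => values (ι (t x.1)) x.2) P‖ ≤ T ^ (-B) * ‖P.coeff s₀‖}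

/-- reindexing of the six functions -/
def idx : Fin 6 → Fin 2 ⊕ Fin 4 := ![Sum.inr 0, Sum.inl 0, Sum.inr 1, Sum.inr 2, Sum.inr 3, Sum.inl 1]

theorem idx_inj : Function.Injective idx := by decide

open Pool.Agent.Y668.PE in
theorem values_eq (x : ℂ) (hx : -x ∈ Complex.slitPlane) (i : Fin 6) : values x i = famLE (idx i) x := by
  have h0 : x ≠ 0 := slit_ne hx
  have hM : M x = arg0 x := rfl
  have hM0 : arg0 x ≠ 0 := by
    intro h
    have := arg0_re_pos x
    rw [h] at this
    simp at this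
  have hexp := exp_arg0 x h0
  have hsl : arg0 x ∈ Complex.slitPlane := Or.inl (arg0_re_pos x)
  fin_cases i
  · rfl
  · change E x = famLE (Sum.inl 0) x
    rw [famLE_inl 0 h0]
    rfl
  · change M x ^ M x = Complex.exp (arg0 x * Complex.log (arg0 x))
    rw [hM, Complex.cpow_def_of_ne_zero hM0, mul_comm]
  · change M x ^ E x = Complex.exp (Complex.exp (2 + Complex.exp (Complex.I * arg0 x)) * Complex.log (arg0 x))
    rw [hM, Complex.cpow_def_of_ne_zero hM0, mul_comm, hexp]
    rfl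
  · change Complex.exp ((2 + x) * M x) = Complex.exp ((2 + Complex.exp (Complex.I * arg0 x)) * arg0 x)
    rw [hexp, hM]
  · change Complex.exp ((2 + x) * E x) = famLE (Sum.inl 1) x
    rw [famLE_inl 1 h0]
    rfl

theorem famLE_an (y : Fin 2 ⊕ Fin 4) (t : ℂ) (ht : -t ∈ Complex.slitPlane) :
    AnalyticAt ℂ (Pool.Agent.Y668.PE.famLE y) t := by
  open Pool.Agent.Y668.PE in
  unfold famLE
  have h1 := arg0_analytic t ht
  rcases y with i | i
  · exact (phiLE_an i _).comp_of_eq (analyticAt_const.mul h1).cexp rfl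
  · exact (F2LE_an i _ (arg0_re_pos t)).comp_of_eq h1 rfl

theorem value_at : values (-1) = ![(Real.pi : ℂ), (Real.exp 1 : ℂ), ((Real.pi ^ Real.pi : ℝ) : ℂ),
    ((Real.pi ^ Real.exp 1 : ℝ) : ℂ), ((Real.exp 1 ^ Real.pi : ℝ) : ℂ), ((Real.exp 1 ^ Real.exp 1 : ℝ) : ℂ)] := by
  have hM : M (-1) = Real.pi := by simp [M]
  have hE : E (-1) = ((Real.exp 1 : ℝ) : ℂ) := by
    unfold E
    rw [Complex.ofReal_exp]
    norm_num
  have h2 : (2 + (-1 : ℂ)) = 1 := by norm_num
  funext i
  fin_cases i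
  · exact hM
  · exact hE
  · change M (-1) ^ M (-1) = _
    rw [hM]
    simp [Complex.ofReal_cpow Real.pi_pos.le]
  · change M (-1) ^ E (-1) = _
    rw [hM, hE]
    simp [Complex.ofReal_cpow Real.pi_pos.le]
  · change Complex.exp ((2 + (-1)) * M (-1)) = _
    rw [hM, h2, one_mul]
    change _ = ((Real.exp 1 ^ Real.pi : ℝ) : ℂ)
    rw [← Real.exp_mul, one_mul, Complex.ofReal_exp]
  · change Complex.exp ((2 + (-1)) * E (-1)) = _
    rw [hE, h2, one_mul]
    change _ = ((Real.exp 1 ^ Real.exp 1 : ℝ) : ℂ)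
    rw [← Real.exp_mul, one_mul, Complex.ofReal_exp (Real.exp 1)]

/-- At `x = -1` the six numbers are `π`, `e`, `π^π`, `π^e`, `e^π`, `e^e`.  Let `L` be a compact set in `ℂ` disjoint from
the half line `[0, ∞)`.  For all `m`, `n`, `g`, `d`, `A` and `ε > 0` there are `B`, `C`, `T₀` such that for every number
field `F` of degree at most `m`, every embedding of `F` in `ℂ`, all complex numbers `ξ_1, …, ξ_g` and all `T ≥ T₀` the
number of exceptional `n`-tuples is at most `C T^ε N^(n - 1)`, where `N` is the number of points. -/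
theorem result :
    values (-1) = ![(Real.pi : ℂ), (Real.exp 1 : ℂ), ((Real.pi ^ Real.pi : ℝ) : ℂ),
      ((Real.pi ^ Real.exp 1 : ℝ) : ℂ), ((Real.exp 1 ^ Real.pi : ℝ) : ℂ), ((Real.exp 1 ^ Real.exp 1 : ℝ) : ℂ)] ∧
    ∀ (m n g d : ℕ) (L : Set ℂ), IsCompact L → (∀ x ∈ L, x.re < 0 ∨ x.im ≠ 0) → ∀ (A ε : ℝ), 0 < ε →
    ∃ B C T₀ : ℝ, ∀ (F : Type) [Field F] [NumberField F], Module.finrank ℚ F ≤ m → ∀ (ι : F →+* ℂ) (ξ : Fin g → ℂ)
      (T : ℝ), T₀ ≤ T → (Exceptional n d F ι ξ L A B T).Finite ∧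
        ((Exceptional n d F ι ξ L A B T).ncard : ℝ) ≤ C * T ^ ε * ((Points F ι L T).ncard : ℝ) ^ (n - 1) := by
  classical
  refine ⟨value_at, fun m n g d L hL hL' A ε hε => ?_⟩
  have hsl : ∀ t ∈ L, -t ∈ Complex.slitPlane := by
    intro t ht
    rcases hL' t ht with h | h
    · left
      simpa using h
    · right
      simpa using h
  let f : Fin 6 → ℂ → ℂ := fun i => Pool.Agent.Y668.PE.famLE (idx i)
  have hind : ∀ t ∈ L, Pool.Agent.Y124.LocInd f t := by
    intro t ht P hP
    have hinj : Function.Injective (Option.map idx) := Option.map_injective idx_inj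
    apply MvPolynomial.rename_injective _ hinj
    rw [map_zero]
    apply Pool.Agent.Y668.PE.LE_locInd t (hsl t ht)
    filter_upwards [hP] with z hz
    rw [MvPolynomial.eval_rename, ← hz]
    congr 1
    congr 1
    funext o
    rcases o with _ | i <;> rfl
  obtain ⟨B, C, T₀, hC, hT₀, H⟩ := Pool.Agent.Y124.excNF (h := Fin g) m n d (fun t i => f i t) L
    (fun g' => Pool.Agent.Y124.oneV_of g' f L hL (fun i t ht => famLE_an (idx i) t (hsl t ht)) hind) A ε hε
  refine ⟨B, C, T₀, fun F _ _ hF ι ξ T hT => ?_⟩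
  have hT0 : 0 ≤ T := by linarith
  have hP : Points F ι L T = {x : F | Pool.Agent.Y120.HtLe F T x ∧ ι x ∈ L} := by
    ext x
    constructor
    · rintro ⟨h1, a, b, hb, hab, hx⟩
      exact ⟨⟨a, b, hb, Pool.Agent.Y120.house_le F hT0 fun φ => (hab φ).1,
        Pool.Agent.Y120.house_le F hT0 fun φ => (hab φ).2, hx⟩, h1⟩
    · rintro ⟨⟨a, b, hb, ha, hb', hx⟩, h1⟩
      exact ⟨h1, a, b, hb, fun φ => ⟨(Pool.Agent.Y120.house_ge F _ φ).trans ha,
        (Pool.Agent.Y120.house_ge F _ φ).trans hb'⟩, hx⟩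
  have hsub : Exceptional n d F ι ξ L A B T ⊆ Pool.Agent.Y124.ExcNF n d F ι ξ (fun t i => f i t) L A B T := by
    rintro t ⟨ht, P, hPd, hPc, s₀, hs₀, hs⟩
    refine ⟨fun j => ?_, P, hPd, hPc, s₀, hs₀, ?_⟩
    · have h1 := ht j
      rw [hP] at h1
      exact h1
    · refine le_trans (le_of_eq ?_) hs
      congr 1
      congr 1
      congr 1
      funext x
      exact (values_eq _ (hsl _ (ht x.1).1) x.2).symm
  obtain ⟨h1, h2⟩ := H F hF ι ξ T hT
  refine ⟨h1.subset hsub, ?_⟩
  rw [hP]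
  exact le_trans (by exact_mod_cast Set.ncard_le_ncard hsub h1) h2

end Pool.Agent.Results.MP_a49cf6_nt.LogExpPowers
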