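import Mathlib
import Pool.Agent.Y928.QN.App2

set_option autoImplicit false

/-!
# Simultaneous approximations of `π e`, `π ^ e`, `e ^ e` by algebraic numbers

For every `D` and every `τ > 0` there is `C > 0` such that for all `H ≥ 3` no three algebraic
numbers of degree at most `D` and height at most `H` (in particular no three rational numbers) have
distance less than `exp (-(C (log H) ^ (12 + τ)))` from `π e`, `π ^ e`, `e ^ e`, respectively.
-/

namespace Pool.Agent.Results.MP_a49cf6_nt.SimultaneousMeasure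

open Polynomial

/-- `x` is a root of a nonzero integer polynomial of degree at most `D` all of whose coefficients
have absolute value at most `H`. A rational number `u / v` has this property for all `D ≥ 1` and
`H ≥ max |u| |v|`. -/
def AlgebraicOfSize (D H : ℕ) (x : ℂ) : Prop :=
  ∃ P : ℤ[X], P ≠ 0 ∧ P.natDegree ≤ D ∧ (∀ i, |P.coeff i| ≤ (H : ℤ)) ∧ aeval x P = 0

/-- **A simultaneous approximation measure for `π e`, `π ^ e`, `e ^ e`.** -/
theorem result (D : ℕ) (τ : ℝ) (hτ : 0 < τ) : ∃ C : ℝ, 0 < C ∧ ∀ H : ℕ, 3 ≤ H → ∀ x y z : ℂ,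
    AlgebraicOfSize D H x → AlgebraicOfSize D H y → AlgebraicOfSize D H z →
    Real.exp (-(C * Real.log H ^ (12 + τ))) ≤
      max ‖((Real.pi * Real.exp 1 : ℝ) : ℂ) - x‖
        (max ‖((Real.pi ^ Real.exp 1 : ℝ) : ℂ) - y‖
          ‖((Real.exp 1 ^ Real.exp 1 : ℝ) : ℂ) - z‖) :=
  Pool.Agent.Y928.QN.main2 D τ hτ

end Pool.Agent.Results.MP_a49cf6_nt.SimultaneousMeasure
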